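import Pool.Agent.helper41.HFE.SpecD

/-!
# Project HFE, row GN2: two irreducible curves of the same bidegree with many common points are associated
-/

set_option autoImplicit false

open Polynomial Module Pool.Agent.HFN

namespace Pool.Agent.HFE

noncomputable section

theorem GN2 (hBZT : BZT_stmt) : GN2_stmt := by
  classical
  intro g g' hg hg' hX hY S hS hcard
  by_contra hna
  have hnd : ¬ g ∣ g' := fun h => hna (hg.associated_of_dvd hg' h)
  have h1 := hBZT g g' hg hnd (dX g) (dY g) ⟨hX.le, hY.le⟩ ∅ S (by simp) (by simp) hS
  unfold ip at h1
  simp only [Finset.card_empty] at h1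
  have h2 : dY g * dX g = dX g * dY g := Nat.mul_comm _ _
  omega

end

end Pool.Agent.HFE
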