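import Pool.Agent.helper41.HFE.SpecD

/-!
# Project HFE, row MND: the assembly of block D
-/

set_option autoImplicit false

open Polynomial Module Pool.Agent.HFN

namespace Pool.Agent.HFE

noncomputable section

open Pool.Agent.helper29.JZ in
lemma MND_tr (hTRA : TRA_stmt) {h h' : ℕ} (M W : Finset (Fin h × Fin h')) (a r : ℕ) (hD : DatD M W a 1 r) : DatD (tr M) (tr W) 1 a r := by
  obtain ⟨hM, hc, hro, ha, hb, _, h25, hWM, hWr, hWc⟩ := hD
  obtain ⟨t1, t2, t3, -⟩ := hTRA h h' M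
  obtain ⟨-, u2, u3, -⟩ := hTRA h h' W
  refine ⟨?_, ?_, ?_, le_refl 1, ha, Or.inl rfl, ?_, ?_, ?_, ?_⟩
  · rw [t1, hM]
  · intro k
    rw [t2]
    exact hro k
  · intro m
    rw [t3]
    exact hc m
  · rw [Nat.mul_comm 1 a]
    exact h25
  · unfold tr
    exact Finset.image_subset_image hWM
  · intro m
    rw [u3]
    exact hWc m
  · intro k
    rw [u2]
    exact hWr k

theorem MND : MND_stmt := by
  classical
  intro hAFF hDEF hSWB hTRA hNec hSuf r hr
  constructor
  · intro Y hY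
    obtain ⟨Z, hZ1, hZ2⟩ := hAFF.1 Y
    have hZr : Z.card = r := by rw [hZ1, hY]
    obtain ⟨h, h', M, W, a, b, hD, hdf⟩ := hNec Z (by omega)
    rw [hZr] at hD
    refine ⟨h, h', M, W, a, b, hD, ?_⟩
    intro i j hO
    have h1 := hdf i j (by rw [hZr]; exact hO)
    have h2 := hDEF Z i j
    have h3 := hZ2 i j
    rw [h1, hZr] at h2
    omega
  · intro h h' M W a b hD
    have key : ∃ Z : Finset (ℂ × ℂ), Z.card = r ∧ ∀ i j : ℕ, Om r i j → df Z i j = Df M W a b i j := by
      rcases hD.2.2.2.2.2.1 with ha | hb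
      · subst ha
        exact hSuf h h' M W b r hr hD
      · subst hb
        obtain ⟨Z', hZ'1, hZ'2⟩ := hSuf h' h _ _ a r hr (MND_tr hTRA M W a r hD)
        refine ⟨Z'.image Prod.swap, ?_, ?_⟩
        · rw [Finset.card_image_of_injective _ Prod.swap_injective, hZ'1]
        · intro i j hO
          rw [hSWB.2.1 Z' j i, hZ'2 j i (hSWB.2.2.2.2 r i j hO)]
          exact hSWB.2.2.2.1 h h' M W a 1 i j
    obtain ⟨Z, hZr, hdf⟩ := key
    obtain ⟨Y, hY1, hY2⟩ := hAFF.2 Z
    refine ⟨Y, by rw [hY1, hZr], ?_⟩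
    intro i j hO
    have h1 := hdf i j hO
    have h2 := hDEF Z i j
    have h3 := hY2 i j
    rw [h1, hZr] at h2
    omega

end

end Pool.Agent.HFE
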